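import Pool.Agent.Helper79.PN.Lem

set_option autoImplicit false

/-!
PN, module INQ: the operator `-H - 3 - s` is bounded below on real functions.
-/

namespace Pool.Agent.Helper71.PN

open Pool.Agent.Helper79.PN

open scoped Classical

theorem inq_dom {a b : Lam → ℝ} (hb : Sq b) (h : ∀ K, a K ^ 2 ≤ b K ^ 2) : Sq a :=
  Summable.of_nonneg_of_le (fun _ => sq_nonneg _) h hb

theorem inq_mul {u a : Lam → ℝ} (hu : Sq u) (ha : Sq a) : Summable fun K => u K * a K := by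
  apply Summable.of_norm_bounded (g := fun K => u K ^ 2 + a K ^ 2) (hu.add ha)
  intro K
  rw [Real.norm_eq_abs, abs_le]
  constructor <;> nlinarith [sq_nonneg (u K + a K), sq_nonneg (u K - a K), sq_nonneg (u K),
    sq_nonneg (a K)]

theorem inq_bd {u a : Lam → ℝ} (hu : Sq u) (ha : Sq a) {ε : ℝ} (hε : 0 < ε) :
    |∑' K, u K * a K| ≤ 1 / 2 * (ε * ∑' K, a K ^ 2 + ε⁻¹ * ∑' K, u K ^ 2) := by
  have hs : Summable fun K => 1 / 2 * (ε * a K ^ 2 + ε⁻¹ * u K ^ 2) :=
    ((ha.mul_left ε).add (hu.mul_left ε⁻¹)).mul_left _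
  have hpt : ∀ K, |u K * a K| ≤ 1 / 2 * (ε * a K ^ 2 + ε⁻¹ * u K ^ 2) := by
    intro K
    have h1 : ε * ε⁻¹ = 1 := mul_inv_cancel₀ hε.ne'
    have h0 : 0 ≤ ε⁻¹ := (inv_pos.mpr hε).le
    have h2 : 0 ≤ ε⁻¹ * (ε * a K - u K) ^ 2 := mul_nonneg h0 (sq_nonneg _)
    have h3 : 0 ≤ ε⁻¹ * (ε * a K + u K) ^ 2 := mul_nonneg h0 (sq_nonneg _)
    have h4 : ε⁻¹ * (ε * a K - u K) ^ 2 = ε * a K ^ 2 + ε⁻¹ * u K ^ 2 - 2 * (u K * a K) := by
      have : ε⁻¹ * (ε * a K - u K) ^ 2 = (ε * ε⁻¹) * ε * a K ^ 2 + ε⁻¹ * u K ^ 2 -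
          2 * (ε * ε⁻¹) * (u K * a K) := by ring
      rw [this, h1]
      ring
    have h5 : ε⁻¹ * (ε * a K + u K) ^ 2 = ε * a K ^ 2 + ε⁻¹ * u K ^ 2 + 2 * (u K * a K) := by
      have : ε⁻¹ * (ε * a K + u K) ^ 2 = (ε * ε⁻¹) * ε * a K ^ 2 + ε⁻¹ * u K ^ 2 +
          2 * (ε * ε⁻¹) * (u K * a K) := by ring
      rw [this, h1]
      ring
    rw [abs_le]
    constructor <;> linarith
  have hm := inq_mul hu ha
  have hrhs : ∑' K, 1 / 2 * (ε * a K ^ 2 + ε⁻¹ * u K ^ 2) =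
      1 / 2 * (ε * ∑' K, a K ^ 2 + ε⁻¹ * ∑' K, u K ^ 2) := by
    rw [tsum_mul_left, (ha.mul_left ε).tsum_add (hu.mul_left ε⁻¹), tsum_mul_left, tsum_mul_left]
  rw [← hrhs, abs_le]
  constructor
  · rw [← tsum_neg]
    exact hs.neg.tsum_le_tsum (fun K => neg_le_of_abs_le (hpt K)) hm
  · exact hm.tsum_le_tsum (fun K => le_of_abs_le (hpt K)) hs

/-- INQ -/
theorem st_INQ (hSMT : ST_SMT) (hADJ : ST_ADJ) (hEXP : ST_EXP) (hLBD : ST_LBD)
    (hBLB : ST_BLB) : ST_INQ := by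
  intro s hs hs5
  refine ⟨1764 / (s / 100) ^ 2, by positivity, ?_⟩
  intro P f hf hsup
  set c := s / 100 with hc
  have hc0 : 0 < c := by rw [hc]; positivity
  set a := pa P f with ha
  set b := pb P f with hb
  set u := uu P s f with hu
  have hab : ∀ K, f K ^ 2 = a K ^ 2 + b K ^ 2 := by
    intro K
    rw [ha, hb]
    unfold pa pb
    by_cases h : IsT P K
    · rw [if_pos h, if_pos h]
      ring
    · rw [if_neg h, if_neg h]
      ring
  have hSa : Sq a := inq_dom hf fun K => by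
    have := sq_nonneg (b K)
    rw [hab K]
    linarith
  have hSb : Sq b := inq_dom hf fun K => by
    have := sq_nonneg (a K)
    rw [hab K]
    linarith
  have hSadj : Sq (adj f) := hADJ.1 f hf
  have hSu : Sq u := by
    have hsum : Summable fun K => 2 * (100 * f K ^ 2 + adj f K ^ 2) :=
      ((hf.mul_left 100).add hSadj).mul_left 2
    refine Summable.of_nonneg_of_le (fun K => sq_nonneg _) ?_ hsum
    intro K
    have hd := hADJ.2.2.2.1 P K
    have h1 : (dg P K - 3 - s) ^ 2 ≤ 100 := by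
      have h2 : -10 ≤ dg P K - 3 - s := by linarith [hd.1]
      have h3 : dg P K - 3 - s ≤ 10 := by linarith [hd.2.1]
      nlinarith
    have h2 : ((dg P K - 3 - s) * f K - adj f K) ^ 2 ≤ 2 * (100 * f K ^ 2 + adj f K ^ 2) := by
      have h3 : (dg P K - 3 - s) ^ 2 * f K ^ 2 ≤ 100 * f K ^ 2 :=
        mul_le_mul_of_nonneg_right h1 (sq_nonneg _)
      nlinarith [sq_nonneg ((dg P K - 3 - s) * f K + adj f K)]
    rw [hu]
    unfold uu
    by_cases h : InV P K
    · unfold ind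
      rw [if_pos h, one_mul]
      exact h2
    · unfold ind
      rw [if_neg h, zero_mul]
      have h4 := sq_nonneg (f K)
      have h5 := sq_nonneg (adj f K)
      nlinarith
  have hfab : ∑' K, f K ^ 2 = ∑' K, a K ^ 2 + ∑' K, b K ^ 2 := by
    rw [← hSa.tsum_add hSb]
    exact tsum_congr hab
  have hSup4 : Sup4 P a := by
    intro K hK
    rw [ha]
    unfold pa
    rcases hK with hK | hK
    · by_cases h : IsT P K
      · rw [if_pos h]
      · rw [if_neg h]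
        exact hsup K hK
    · rw [if_pos hK]
  have hb0 : ∀ K, ¬ IsT P K → b K = 0 := by
    intro K hK
    rw [hb]
    unfold pb
    rw [if_neg hK]
  have h1 := hLBD P s a b hs hs5 hSa hSb hSup4 hb0
  have h2 := hEXP P s f hf hsup
  rw [← ha, ← hb, ← hu] at h2
  rw [← h2] at h1
  rw [← hfab, ← hc] at h1
  set ε := c / 42 with hε
  have hε0 : 0 < ε := by rw [hε]; positivity
  have k1 := inq_bd hSu hSa hε0
  have k2 := inq_bd hSu hSb hε0
  have k3 := hBLB P u a ε hSu hSa hε0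
  have hnu := hSMT.1 u hSu
  have hna := hSMT.1 a hSa
  have k4 := hBLB P.mir (ng u) (ng a) ε hnu.1 hna.1 hε0
  rw [hnu.2, hna.2] at k4
  have l1 := le_of_abs_le k1
  have l2 := neg_le_of_abs_le k2
  have l3 := neg_le_of_abs_le k3
  have l4 := neg_le_of_abs_le k4
  set A := ∑' K, a K ^ 2 with hA
  set B := ∑' K, b K ^ 2 with hB
  set U := ∑' K, u K ^ 2 with hU
  set F := ∑' K, f K ^ 2 with hF
  have hA0 : 0 ≤ A := tsum_nonneg fun K => sq_nonneg _
  have hB0 : 0 ≤ B := tsum_nonneg fun K => sq_nonneg _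
  have hU0 : 0 ≤ U := tsum_nonneg fun K => sq_nonneg _
  have m1 : c * F ≤ 21 * (ε * F) + 21 * (ε⁻¹ * U) := by
    have hAB : ε * F = ε * A + ε * B := by rw [hfab]; ring
    have hB' : 0 ≤ ε * B := mul_nonneg hε0.le hB0
    have hA' : 0 ≤ ε * A := mul_nonneg hε0.le hA0
    linarith
  have m2 : 21 * (ε * F) = c / 2 * F := by rw [hε]; ring
  have m3 : ε⁻¹ = 42 / c := by rw [hε, inv_div]
  rw [m2, m3] at m1
  have m4 : c / 2 * F ≤ 882 / c * U := by
    have : 21 * (42 / c * U) = 882 / c * U := by ring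
    linarith
  have m5 : F = 2 / c * (c / 2 * F) := by
    field_simp
  rw [m5]
  calc 2 / c * (c / 2 * F) ≤ 2 / c * (882 / c * U) :=
        mul_le_mul_of_nonneg_left m4 (by positivity)
    _ = 1764 / c ^ 2 * U := by
        field_simp
        ring

end Pool.Agent.Helper71.PN
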