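import Pool.Agent.Helper31.PM.MORM
import Pool.Agent.Helper7.PW.INL
import Pool.Agent.Helper95.PN.Stmts

/-! Row MLOC: the localized Morawetz inequality. -/

set_option autoImplicit false

namespace Pool.Agent.Helper95.PW

open MeasureTheory Filter

theorem MLOC_pd {g : R3 → ℝ} (hg : ContDiff ℝ (⊤ : ℕ∞) g) (i : Fin 3) :
    ContDiff ℝ (⊤ : ℕ∞) (pd i g) :=
  (hg.fderiv_right (m := (⊤ : ℕ∞)) (by simp)).clm_apply contDiff_const

theorem MLOC_lap {g : R3 → ℝ} (hg : ContDiff ℝ (⊤ : ℕ∞) g) : ContDiff ℝ (⊤ : ℕ∞) (lap g) := by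
  unfold lap
  exact ContDiff.sum fun i _ => MLOC_pd (MLOC_pd hg i) i

theorem MLOC_int {n : ℕ} {w : R3 → ℝ} (hw : Continuous w) {v : Cf n → ℝ} (hv : Continuous v)
    (hc : HasCompactSupport v) : Integrable (fun x : Cf n => (∑ k, w (x k)) * v x ^ 2) := by
  refine Continuous.integrable_of_hasCompactSupport ?_ ?_
  · exact (continuous_finsetSum _ fun k _ => hw.comp (continuous_apply k)).mul (hv.pow 2)
  · have h1 : HasCompactSupport (fun x : Cf n => v x ^ 2) := by
      have h2 : (fun x : Cf n => v x ^ 2) = fun x => v x * v x := by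
        funext x
        ring
      rw [h2]
      exact hc.mul_left
    exact h1.mul_left

theorem MLOC_one_nonneg {n : ℕ} {w : R3 → ℝ} (hw : ∀ y, 0 ≤ w y) (u : Wf n) : 0 ≤ one w u := by
  unfold one
  exact Finset.sum_nonneg fun s _ => integral_nonneg fun x =>
    mul_nonneg (Finset.sum_nonneg fun k _ => hw _) (sq_nonneg _)

theorem MLOC_mor_nonneg (s : ℝ) (y : R3) : 0 ≤ mor s y := by
  unfold mor
  have : 0 ≤ nr y ^ 2 + s ^ 2 := by positivity
  have h2 := Real.rpow_nonneg this (7 / 2 : ℝ)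
  have h3 : 0 ≤ 15 / 2 * s ^ 4 := by positivity
  exact div_nonneg h3 h2

theorem MLOC_mor_cont {s : ℝ} (hs : 0 < s) (b : R3) : Continuous fun y => mor s (y - b) := by
  unfold mor
  have h1 : Continuous fun y : R3 => nr (y - b) ^ 2 + s ^ 2 :=
    ((INL_nr.comp (continuous_id.sub continuous_const)).pow 2).add continuous_const
  have h2 : ∀ y : R3, 0 < nr (y - b) ^ 2 + s ^ 2 := fun y => by positivity
  refine continuous_const.div (h1.rpow_const fun y => Or.inl (h2 y).ne') fun y => ?_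
  exact (Real.rpow_pos_of_pos (h2 y) _).ne'

/-- the attraction terms -/
theorem MLOC_att {n M : ℕ} {X : Fin M → R3} {A d : ℝ} {g : R3 → ℝ} (hA : 0 ≤ A) (hd : 0 < d)
    (h1 : ∀ i y, |pd i g y| ≤ A) {c : ℝ} (hc : ∀ y, far1 X d y ≤ c) {u : Wf n} (hu : Sm u)
    (hi : ∀ j s, Integrable (fun x : Cf n => (∑ k, Real.sqrt (grd g (x k)) / nr (x k - X j) ^ 2) *
      u s x ^ 2))
    (hn : ∀ s, Integrable (fun x : Cf n => (∑ k, near2 X d (x k)) * u s x ^ 2)) :
    ∑ j, one (fun y => Real.sqrt (grd g y) / nr (y - X j) ^ 2) u ≤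
      2 * A * one (near2 X d) u + 2 * A / d * c * (n * sq u) := by
  have hg : ∀ y, Real.sqrt (grd g y) ≤ 2 * A := by
    intro y
    rw [show 2 * A = Real.sqrt ((2 * A) ^ 2) from (Real.sqrt_sq (by positivity)).symm]
    refine Real.sqrt_le_sqrt ?_
    unfold grd
    have h2 : ∀ i, pd i g y ^ 2 ≤ A ^ 2 := fun i => sq_le_sq' (abs_le.1 (h1 i y)).1
      (abs_le.1 (h1 i y)).2
    rw [Fin.sum_univ_three]
    nlinarith [h2 0, h2 1, h2 2, sq_nonneg A]
  have hp : ∀ y, ∑ j, Real.sqrt (grd g y) / nr (y - X j) ^ 2 ≤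
      2 * A * near2 X d y + 2 * A / d * c := by
    intro y
    have h3 : ∑ j, Real.sqrt (grd g y) / nr (y - X j) ^ 2 ≤
        2 * A * near2 X d y + 2 * A / d * far1 X d y := by
      unfold near2 far1
      rw [Finset.mul_sum, Finset.mul_sum, ← Finset.sum_add_distrib]
      refine Finset.sum_le_sum fun j _ => ?_
      have h4 := INL_nr0 (y - X j)
      have h5 : Real.sqrt (grd g y) / nr (y - X j) ^ 2 ≤ 2 * A * (1 / nr (y - X j) ^ 2) := by
        rw [mul_one_div]
        exact div_le_div_of_nonneg_right (hg y) (by positivity)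
      by_cases h6 : nr (y - X j) < d
      · rw [if_pos h6]
        have h7 : 0 ≤ 2 * A / d * (if d / 2 ≤ nr (y - X j) then 1 / nr (y - X j) else 0) := by
          split_ifs <;> positivity
        linarith
      · rw [if_neg h6, if_pos (by push Not at h6; linarith)]
        push Not at h6
        have h8 : 0 < nr (y - X j) := hd.trans_le h6
        have h9 : 1 / nr (y - X j) ^ 2 ≤ 1 / d * (1 / nr (y - X j)) := by
          rw [one_div_mul_one_div]
          refine one_div_le_one_div_of_le (by positivity) ?_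
          nlinarith
        calc _ ≤ 2 * A * (1 / nr (y - X j) ^ 2) := h5
          _ ≤ 2 * A * (1 / d * (1 / nr (y - X j))) := by gcongr
          _ = 2 * A * 0 + 2 * A / d * (1 / nr (y - X j)) := by ring
    have h10 : 2 * A / d * far1 X d y ≤ 2 * A / d * c :=
      mul_le_mul_of_nonneg_left (hc y) (by positivity)
    linarith
  unfold one sq
  rw [Finset.sum_comm, Finset.mul_sum, Finset.mul_sum, Finset.mul_sum, ← Finset.sum_add_distrib]
  refine Finset.sum_le_sum fun s _ => ?_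
  have hv := (hu s).1.continuous
  have hcs := (hu s).2
  have i2 : Integrable (fun x : Cf n => u s x ^ 2) := by
    have := MLOC_int (n := n) (w := fun _ => (0 : ℝ)) continuous_const hv hcs
    exact (hv.memLp_of_hasCompactSupport hcs (p := 2)).integrable_sq
  rw [← integral_finsetSum _ fun j _ => hi j s, ← integral_const_mul, ← integral_const_mul,
    ← integral_const_mul, ← integral_add ((hn s).const_mul _) ((i2.const_mul _).const_mul _)]
  refine integral_mono (integrable_finsetSum _ fun j _ => hi j s)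
    (((hn s).const_mul _).add ((i2.const_mul _).const_mul _)) fun x => ?_
  have e1 : ∑ j, (∑ k, Real.sqrt (grd g (x k)) / nr (x k - X j) ^ 2) * u s x ^ 2 =
      (∑ k, ∑ j, Real.sqrt (grd g (x k)) / nr (x k - X j) ^ 2) * u s x ^ 2 := by
    rw [← Finset.sum_mul, Finset.sum_comm]
  have e2 : (∑ k, ∑ j, Real.sqrt (grd g (x k)) / nr (x k - X j) ^ 2) ≤
      ∑ k, (2 * A * near2 X d (x k) + 2 * A / d * c) := Finset.sum_le_sum fun k _ => hp (x k)
  have e3 : ∑ k, (2 * A * near2 X d (x k) + 2 * A / d * c) =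
      2 * A * ∑ k, near2 X d (x k) + n * (2 * A / d * c) := by
    rw [Finset.sum_add_distrib, ← Finset.mul_sum, Finset.sum_const, Finset.card_univ,
      Fintype.card_fin, nsmul_eq_mul]
  rw [e3] at e2
  simp only
  rw [e1]
  have e4 := mul_le_mul_of_nonneg_right e2 (sq_nonneg (u s x))
  refine e4.trans (le_of_eq ?_)
  ring

/-- the Morawetz side -/
theorem MLOC_bi {n M : ℕ} {X : Fin M → R3} {A s c : ℝ} {g : R3 → ℝ} (hs : 0 < s) (hA : 0 ≤ A)
    (hg : ContDiff ℝ (⊤ : ℕ∞) g) {d : ℝ}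
    (hb : ∀ y, ∑ j, mor s (y - X j) ≤ -(1 / 2) * lap (lap g) y + A * far1 X d y)
    (hc : ∀ y, far1 X d y ≤ c) {u : Wf n} (hu : Sm u) :
    ∑ j, one (fun y => mor s (y - X j)) u ≤ -(1 / 2) * one (lap (lap g)) u +
      A * c * (n * sq u) := by
  have hL : Continuous (lap (lap g)) := (MLOC_lap (MLOC_lap hg)).continuous
  unfold one sq
  rw [Finset.sum_comm, Finset.mul_sum, Finset.mul_sum, Finset.mul_sum, ← Finset.sum_add_distrib]
  refine Finset.sum_le_sum fun t _ => ?_
  have hv := (hu t).1.continuous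
  have hcs := (hu t).2
  have i1 : ∀ j, Integrable (fun x : Cf n => (∑ k, mor s (x k - X j)) * u t x ^ 2) :=
    fun j => MLOC_int (MLOC_mor_cont hs (X j)) hv hcs
  have i2 : Integrable (fun x : Cf n => u t x ^ 2) :=
    (hv.memLp_of_hasCompactSupport hcs (p := 2)).integrable_sq
  have i3 := MLOC_int (n := n) hL hv hcs
  rw [← integral_finsetSum _ fun j _ => i1 j, ← integral_const_mul, ← integral_const_mul,
    ← integral_const_mul, ← integral_add (i3.const_mul _) ((i2.const_mul _).const_mul _)]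
  refine integral_mono (integrable_finsetSum _ fun j _ => i1 j)
    ((i3.const_mul _).add ((i2.const_mul _).const_mul _)) fun x => ?_
  have e1 : ∑ j, (∑ k, mor s (x k - X j)) * u t x ^ 2 =
      (∑ k, ∑ j, mor s (x k - X j)) * u t x ^ 2 := by
    rw [← Finset.sum_mul, Finset.sum_comm]
  have e2 : (∑ k, ∑ j, mor s (x k - X j)) ≤ ∑ k, (-(1 / 2) * lap (lap g) (x k) + A * c) :=
    Finset.sum_le_sum fun k _ => (hb (x k)).trans (by
      have := mul_le_mul_of_nonneg_left (hc (x k)) hA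
      linarith)
  have e3 : ∑ k, (-(1 / 2) * lap (lap g) (x k) + A * c) =
      -(1 / 2) * ∑ k, lap (lap g) (x k) + n * (A * c) := by
    rw [Finset.sum_add_distrib, ← Finset.mul_sum, Finset.sum_const, Finset.card_univ,
      Fintype.card_fin, nsmul_eq_mul]
  rw [e3] at e2
  simp only
  rw [e1]
  have e4 := mul_le_mul_of_nonneg_right e2 (sq_nonneg (u t x))
  refine e4.trans (le_of_eq ?_)
  ring

/-- the Hessian term -/
theorem MLOC_hess {n : ℕ} {A : ℝ} {g : R3 → ℝ} (hg : ContDiff ℝ (⊤ : ℕ∞) g)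
    (hs : ∀ (y : R3) (ξ : Fin 3 → ℝ), -(A * ∑ i, ξ i ^ 2) ≤
      ∑ i, ∑ l, pd i (pd l g) y * ξ i * ξ l) {u : Wf n} (hu : Sm u) :
    -(A * kin u) ≤
      ∑ s, ∑ k, ∑ i, ∑ l, ∫ x, pd i (pd l g) (x k) * (dv k i (u s) x * dv k l (u s) x) := by
  have e0 : kin u = ∑ s, ∑ k, ∑ i, ∫ x, dv k i (u s) x ^ 2 := by
    unfold kin sq
    rw [Finset.sum_comm (s := (Finset.univ : Finset (Fin n → Fin 2)))]
    refine Finset.sum_congr rfl fun k _ => ?_
    rw [Finset.sum_comm (s := (Finset.univ : Finset (Fin n → Fin 2)))]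
  rw [e0, Finset.mul_sum, ← Finset.sum_neg_distrib]
  refine Finset.sum_le_sum fun s _ => ?_
  rw [Finset.mul_sum, ← Finset.sum_neg_distrib]
  refine Finset.sum_le_sum fun k _ => ?_
  have hd : ∀ i, ContDiff ℝ (⊤ : ℕ∞) (dv k i (u s)) ∧ HasCompactSupport (dv k i (u s)) :=
    fun i => INL_dv k i (hu s).1 (hu s).2
  have hp : ∀ i l, Continuous (fun x : Cf n => pd i (pd l g) (x k)) := fun i l =>
    (MLOC_pd (MLOC_pd hg l) i).continuous.comp (continuous_apply k)
  have i1 : ∀ i l, Integrable (fun x : Cf n =>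
      pd i (pd l g) (x k) * (dv k i (u s) x * dv k l (u s) x)) := fun i l =>
    Continuous.integrable_of_hasCompactSupport
      ((hp i l).mul ((hd i).1.continuous.mul (hd l).1.continuous)) (hd i).2.mul_right.mul_left
  have i2 : ∀ i, Integrable (fun x : Cf n => dv k i (u s) x ^ 2) := fun i =>
    ((hd i).1.continuous.memLp_of_hasCompactSupport (hd i).2 (p := 2)).integrable_sq
  have e1 : ∑ i, ∑ l, ∫ x, pd i (pd l g) (x k) * (dv k i (u s) x * dv k l (u s) x) =
      ∫ x, ∑ i, ∑ l, pd i (pd l g) (x k) * (dv k i (u s) x * dv k l (u s) x) := by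
    rw [integral_finsetSum _ fun i _ => integrable_finsetSum _ fun l _ => i1 i l]
    refine Finset.sum_congr rfl fun i _ => ?_
    rw [integral_finsetSum _ fun l _ => i1 i l]
  have e2 : -(A * ∑ i, ∫ x, dv k i (u s) x ^ 2) = ∫ x, -(A * ∑ i, dv k i (u s) x ^ 2) := by
    rw [integral_neg, integral_const_mul, integral_finsetSum _ fun i _ => i2 i]
  rw [e1, e2]
  refine integral_mono (((integrable_finsetSum _ fun i _ => i2 i).const_mul A).neg)
    (integrable_finsetSum _ fun i _ => integrable_finsetSum _ fun l _ => i1 i l) fun x => ?_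
  refine (hs (x k) fun i => dv k i (u s) x).trans (le_of_eq ?_)
  refine Finset.sum_congr rfl fun i _ => Finset.sum_congr rfl fun l _ => ?_
  ring

/-- the identity for the residual -/
theorem MLOC_res (pan : ST_PAN) (int : ST_INTM) {n M : ℕ} (X : Fin M → R3) (Z : Fin M → ℝ)
    (E : ℝ) {g : R3 → ℝ} (hg : ContDiff ℝ (⊤ : ℕ∞) g) {u : Wf n} (hu : Sm u)
    (hw : Sm (fun s => Pg g (u s))) :
    ∑ s, ∫ x, Pg g (u s) x * (hmM X Z (u s) x - E * u s x) =
      (∑ s, ∫ x, Pg g (u s) x * (-(∑ k, ∑ i, dv k i (dv k i (u s)) x))) +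
      (∑ s, ∫ x, rep x * (Pg g (u s) x * u s x)) -
      ∑ j, Z j * ∑ s, ∫ x, (∑ k, 1 / nr (x k - X j)) * (Pg g (u s) x * u s x) := by
  have i0 : ∀ j s, Integrable (fun x : Cf n =>
      (∑ k, 1 / nr (x k - X j)) * (Pg g (u s) x * u s x)) := by
    intro j s
    simp only [Finset.sum_mul]
    exact integrable_finsetSum _ fun k _ =>
      Pool.Agent.Helper31.PMMOR.ib int (hw s).1 (hw s).2 (hu s).1 (hu s).2 (X j) k
  have e0 : ∑ j, Z j * ∑ s, ∫ x, (∑ k, 1 / nr (x k - X j)) * (Pg g (u s) x * u s x) =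
      ∑ s, ∫ x, (∑ k, pot X Z (x k)) * (Pg g (u s) x * u s x) := by
    simp only [Finset.mul_sum (s := (Finset.univ : Finset (Fin n → Fin 2)))]
    rw [Finset.sum_comm]
    refine Finset.sum_congr rfl fun s _ => ?_
    simp only [← integral_const_mul]
    rw [← integral_finsetSum _ fun j _ => (i0 j s).const_mul _]
    refine integral_congr_ae (ae_of_all _ fun x => ?_)
    simp only
    unfold pot
    rw [Finset.sum_comm, Finset.sum_mul]
    refine Finset.sum_congr rfl fun j _ => ?_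
    rw [← mul_assoc]
    congr 1
    rw [Finset.mul_sum]
    refine Finset.sum_congr rfl fun k _ => ?_
    ring
  rw [e0, ← Finset.sum_add_distrib, ← Finset.sum_sub_distrib]
  refine Finset.sum_congr rfl fun s _ => ?_
  obtain ⟨hw1, hw2⟩ := hw s
  obtain ⟨hu1, hu2⟩ := hu s
  have hI := int n M X Z (Pg g (u s)) (u s) hw1 hw2 hu1 hu2
  have hdd : ContDiff ℝ (⊤ : ℕ∞) (fun x : Cf n => -(∑ k, ∑ i, dv k i (dv k i (u s)) x)) := by
    refine ContDiff.neg (ContDiff.sum fun k _ => ContDiff.sum fun i _ => ?_)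
    exact (INL_dv k i (INL_dv k i hu1 hu2).1 (INL_dv k i hu1 hu2).2).1
  have i1 : Integrable (fun x : Cf n =>
      Pg g (u s) x * (-(∑ k, ∑ i, dv k i (dv k i (u s)) x))) :=
    (hw1.continuous.mul hdd.continuous).integrable_of_hasCompactSupport hw2.mul_right
  have i4 : Integrable (fun x : Cf n => Pg g (u s) x * u s x) :=
    (hw1.continuous.mul hu1.continuous).integrable_of_hasCompactSupport hw2.mul_right
  have z0 : ∫ x, Pg g (u s) x * u s x = 0 := by
    have h := pan n g (u s) (u s) hg hu1 hu2 hu1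
    have h2 : ∫ x, u s x * Pg g (u s) x = ∫ x, Pg g (u s) x * u s x :=
      integral_congr_ae (ae_of_all _ fun x => mul_comm _ _)
    rw [h2] at h
    linarith
  have e1 : (fun x => Pg g (u s) x * (hmM X Z (u s) x - E * u s x)) = fun x =>
      Pg g (u s) x * (-(∑ k, ∑ i, dv k i (dv k i (u s)) x)) +
      rep x * (Pg g (u s) x * u s x) - (∑ k, pot X Z (x k)) * (Pg g (u s) x * u s x) -
      E * (Pg g (u s) x * u s x) := by
    funext x
    unfold hmM
    ring
  have j1 : Integrable (fun x : Cf n =>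
      Pg g (u s) x * (-(∑ k, ∑ i, dv k i (dv k i (u s)) x)) +
      rep x * (Pg g (u s) x * u s x)) := i1.add hI.2.1
  have j2 : Integrable (fun x : Cf n =>
      Pg g (u s) x * (-(∑ k, ∑ i, dv k i (dv k i (u s)) x)) +
      rep x * (Pg g (u s) x * u s x) -
      (∑ k, pot X Z (x k)) * (Pg g (u s) x * u s x)) := j1.sub hI.1
  have j3 : Integrable (fun x : Cf n => E * (Pg g (u s) x * u s x)) := i4.const_mul E
  rw [e1, integral_sub j2 j3, integral_sub j1 hI.1, integral_add i1 hI.2.1, integral_const_mul, z0]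
  ring

theorem st_MLOC (h1 : ST_MGS) (h2 : ST_KID) (h3 : ST_REPL) (h4 : ST_ATTL) (h5 : ST_PGB)
    (h6 : ST_PK) (h7 : ST_HLOC) (h8 : ST_PAN) (h9 : ST_STB) (h10 : ST_INTM) : ST_MLOC := by
  intro z d hz hd
  obtain ⟨A, hA1, hA⟩ := h1 d hd
  obtain ⟨C1, hC1, hPK⟩ := h6
  obtain ⟨C2, hC2, hH⟩ := h7
  have hA0 : 0 ≤ A := by linarith
  refine ⟨z * (3 * A + 2 * z * A * C2 + 4 * z * A * (C2 + C1) / d ^ 2 + 2 * A * C1 / d) + 1,
    by positivity, fun n M X Z E B0 hM hX hZ0 hZ => ?_⟩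
  obtain ⟨P, hP⟩ : ∃ P, P = 7 * A ^ 2 * n * (|B0| + C2 * (|B0| + n * 2 / d ^ 2)) := ⟨_, rfl⟩
  have hP0 : 0 ≤ P := by rw [hP]; positivity
  refine ⟨2 * z * Real.sqrt P + 1, by positivity, fun u hu hsq hkB s hs hsd => ?_⟩
  have hg := hA M X s hX hs hsd
  obtain ⟨g, hgg⟩ : ∃ g, g = mG X d s := ⟨_, rfl⟩
  rw [← hgg] at hg
  obtain ⟨m, hm⟩ : ∃ m, m = (M : ℝ) ^ (2 / 3 : ℝ) := ⟨_, rfl⟩
  have hm1 : 1 ≤ m := by
    rw [hm]
    exact Real.one_le_rpow (by exact_mod_cast hM) (by norm_num)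
  have hfar : ∀ y, far1 X d y ≤ C1 * m / d := fun y => by
    rw [hm]
    exact hPK M X d y hd hX
  have hw : Sm (fun s => Pg g (u s)) := (h9 n g u hg.sm hu).2.1
  have hkin0 : 0 ≤ kin u := by
    unfold kin sq
    exact Finset.sum_nonneg fun k _ => Finset.sum_nonneg fun i _ => Finset.sum_nonneg fun s _ =>
      integral_nonneg fun x => sq_nonneg _
  have hsq0 : 0 ≤ sq u := by
    unfold sq
    exact Finset.sum_nonneg fun s _ => integral_nonneg fun x => sq_nonneg _
  have hpair0 : 0 ≤ pair u := by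
    unfold pair
    refine Finset.sum_nonneg fun s _ => integral_nonneg fun x => mul_nonneg ?_ (sq_nonneg _)
    unfold rep
    refine Finset.sum_nonneg fun k _ => Finset.sum_nonneg fun l _ => ?_
    split_ifs
    · exact div_nonneg zero_le_one (INL_nr0 _)
    · exact le_rfl
  have hHL := hH n M X d u hd hX hu
  have hatt := fun j => h4 n g (X j) u hg.sm hg.cs hu
  have hQ := MLOC_att (X := X) (d := d) (c := C1 * m / d) hA0 hd hg.d1 hfar hu
    (fun j => (hatt j).1) hHL.1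
  have hB := MLOC_bi hs hA0 hg.sm hg.bi hfar hu
  have hK := h2 n g u hg.sm hu
  have hHs := MLOC_hess hg.sm hg.hs hu
  have hR := MLOC_res h8 h10 X Z E hg.sm hu hw
  have hrep := h3 n g A u hg.sm hg.cs hA0 hg.hs hu
  have hcs := INL_cauchy hw (fun s => Pool.Agent.Helper31.PMMOR.hmML h10 X Z E (hu s).1 (hu s).2)
  have hpg := h5 n M X d A g u hd hX hA0 hg.sm hg.d1 hg.lp hu
  obtain ⟨R, hRd⟩ : ∃ R, R = ∑ s, ∫ x, Pg g (u s) x * (hmM X Z (u s) x - E * u s x) := ⟨_, rfl⟩
  obtain ⟨at1, hat1⟩ : ∃ t, t = ∑ j, Z j * ∑ s, ∫ x, (∑ k, 1 / nr (x k - X j)) *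
    (Pg g (u s) x * u s x) := ⟨_, rfl⟩
  obtain ⟨S1, hS1⟩ : ∃ t, t = ∑ j, one (fun y => Real.sqrt (grd g y) / nr (y - X j) ^ 2) u :=
    ⟨_, rfl⟩
  have hat2 : at1 ≤ z / 2 * S1 := by
    rw [hat1, hS1, Finset.mul_sum]
    refine Finset.sum_le_sum fun j _ => ?_
    have a1 := mul_le_mul_of_nonneg_left (hatt j).2 (hZ0 j)
    have a2 : 0 ≤ one (fun y => Real.sqrt (grd g y) / nr (y - X j) ^ 2) u :=
      MLOC_one_nonneg (fun y => by positivity) u
    have a3 := mul_le_mul_of_nonneg_right (hZ j) a2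
    linarith
  have hmor : ∑ j, Z j * one (fun y => mor s (y - X j)) u ≤
      z * ∑ j, one (fun y => mor s (y - X j)) u := by
    rw [Finset.mul_sum]
    exact Finset.sum_le_sum fun j _ => mul_le_mul_of_nonneg_right (hZ j)
      (MLOC_one_nonneg (fun y => MLOC_mor_nonneg s _) u)
  have hRabs : R ≤ Real.sqrt P * Real.sqrt (resM X Z E u) := by
    rw [hRd]
    refine (le_abs_self _).trans (hcs.trans ?_)
    refine mul_le_mul_of_nonneg_right (Real.sqrt_le_sqrt ?_) (Real.sqrt_nonneg _)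
    refine hpg.trans ?_
    rw [hP]
    have b1 : kin u ≤ |B0| := hkB.trans (le_abs_self _)
    have b2 : one (near2 X d) u ≤ C2 * (|B0| + n * 2 / d ^ 2) := by
      refine hHL.2.trans (mul_le_mul_of_nonneg_left ?_ hC2.le)
      have : (n : ℝ) * sq u / d ^ 2 ≤ n * 2 / d ^ 2 := by gcongr
      linarith
    have b3 : 0 ≤ 7 * A ^ 2 * (n : ℝ) := by positivity
    exact mul_le_mul_of_nonneg_left (by linarith) b3
  have hnear := hHL.2
  obtain ⟨N, hN⟩ : ∃ N, N = (n : ℝ) * m := ⟨_, rfl⟩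
  obtain ⟨q, hq⟩ : ∃ q, q = (n : ℝ) * sq u := ⟨_, rfl⟩
  obtain ⟨L, hL⟩ : ∃ L, L = one (lap (lap g)) u := ⟨_, rfl⟩
  obtain ⟨W, hW⟩ : ∃ W, W = kin u + pair u + N := ⟨_, rfl⟩
  have hN0 : 0 ≤ N := by rw [hN]; positivity
  have hq0 : 0 ≤ q := by rw [hq]; positivity
  have hW0 : 0 ≤ W := by rw [hW]; positivity
  have hqn : q ≤ 2 * n := by
    rw [hq]
    have : (n : ℝ) * sq u ≤ n * 2 := by gcongr
    linarith
  have hnN : (n : ℝ) ≤ N := by
    rw [hN]
    have : (n : ℝ) * 1 ≤ n * m := by gcongr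
    linarith
  have hqW : q ≤ 2 * W := by
    rw [hW]
    linarith
  have hmq : m * q ≤ 2 * W := by
    have c1 : m * q ≤ m * (2 * n) := by gcongr
    have c2 : m * (2 * n) = 2 * N := by rw [hN]; ring
    rw [hW]
    linarith
  have hkW : kin u ≤ W := by rw [hW]; linarith
  have p1 : A * pair u + 2 * A * kin u ≤ 3 * A * W := by
    have c1 : A * pair u ≤ A * W := mul_le_mul_of_nonneg_left (by rw [hW]; linarith) hA0
    have c2 : A * kin u ≤ A * W := mul_le_mul_of_nonneg_left hkW hA0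
    linarith
  have p2 : 2 * z * A * C2 * kin u ≤ 2 * z * A * C2 * W :=
    mul_le_mul_of_nonneg_left hkW (by positivity)
  have p3 : 2 * z * A * C2 / d ^ 2 * q ≤ 2 * z * A * C2 / d ^ 2 * (2 * W) :=
    mul_le_mul_of_nonneg_left hqW (by positivity)
  have p4 : 2 * z * A * C1 / d ^ 2 * (m * q) ≤ 2 * z * A * C1 / d ^ 2 * (2 * W) :=
    mul_le_mul_of_nonneg_left hmq (by positivity)
  have p5 : A * C1 / d * (m * q) ≤ A * C1 / d * (2 * W) :=
    mul_le_mul_of_nonneg_left hmq (by positivity)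
  rw [← hL] at hB hK
  rw [← hq] at hB hQ
  rw [← hS1] at hQ
  rw [← hRd, ← hat1, hK] at hR
  have hnear2 : 2 * z * A * one (near2 X d) u ≤ 2 * z * A * (C2 * (kin u + q / d ^ 2)) := by
    rw [hq]
    exact mul_le_mul_of_nonneg_left hnear (by positivity)
  have hzS : z * S1 ≤ z * (2 * A * one (near2 X d) u + 2 * A / d * (C1 * m / d) * q) :=
    mul_le_mul_of_nonneg_left hQ hz
  have e1 : z * (2 * A * one (near2 X d) u + 2 * A / d * (C1 * m / d) * q) =
      2 * z * A * one (near2 X d) u + 2 * z * A * C1 / d ^ 2 * (m * q) := by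
    field_simp
  have e2 : 2 * z * A * (C2 * (kin u + q / d ^ 2)) =
      2 * z * A * C2 * kin u + 2 * z * A * C2 / d ^ 2 * q := by
    field_simp
  have e3 : A * (C1 * m / d) * q = A * C1 / d * (m * q) := by
    field_simp
  rw [e3] at hB
  rw [e1] at hzS
  rw [e2] at hnear2
  have hsum : ∑ j, one (fun y => mor s (y - X j)) u ≤ 2 * R +
      (3 * A + 2 * z * A * C2 + 4 * z * A * (C2 + C1) / d ^ 2 + 2 * A * C1 / d) * W := by
    have e4 : (3 * A + 2 * z * A * C2 + 4 * z * A * (C2 + C1) / d ^ 2 + 2 * A * C1 / d) * W =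
        3 * A * W + 2 * z * A * C2 * W + 2 * z * A * C2 / d ^ 2 * (2 * W) +
        2 * z * A * C1 / d ^ 2 * (2 * W) + A * C1 / d * (2 * W) := by
      field_simp
      ring
    rw [e4]
    linarith
  have hz2 := mul_le_mul_of_nonneg_left hsum hz
  have hR2 := mul_le_mul_of_nonneg_left hRabs (mul_nonneg zero_le_two hz)
  have hres0 := Real.sqrt_nonneg (resM X Z E u)
  have hfin := hmor.trans hz2
  rw [← hm, ← hN, ← hW]
  refine hfin.trans ?_
  have e5 : z * (2 * R + (3 * A + 2 * z * A * C2 + 4 * z * A * (C2 + C1) / d ^ 2 +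
      2 * A * C1 / d) * W) = 2 * z * R + z * (3 * A + 2 * z * A * C2 +
      4 * z * A * (C2 + C1) / d ^ 2 + 2 * A * C1 / d) * W := by ring
  rw [e5]
  have e6 : (2 * z * Real.sqrt P + 1) * Real.sqrt (resM X Z E u) =
      2 * z * (Real.sqrt P * Real.sqrt (resM X Z E u)) + Real.sqrt (resM X Z E u) := by ring
  rw [e6, add_mul, one_mul]
  linarith

end Pool.Agent.Helper95.PW
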